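import Mathlib
import Pool.Agent.P.MP_6ea370_an.Defs
import Pool.Agent.P.MP_6ea370_an.Mix

/-!
The set of sofic entropies of shifts of finite type over the free group of rank `r ≥ 2` is
`{-∞} ∪ [0, ∞)`.
-/

namespace Pool.Agent.Results.MP_6ea370_an.EntropyValues

open Pool.Agent.P.MP_6ea370_an

/-- For `r ≥ 2`, `E_r = {-∞} ∪ [0, ∞)`: every value `h_Σ(X)` lies in this set, and every element of
this set is `h_Σ(X)` for a sofic approximation `Σ` of `F_r` and a (nonempty) `F_r`-SFT `X`. -/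
theorem result (r : ℕ) (hr : 2 ≤ r) :
    (∀ (K : ℕ → Type) (π : ∀ n, FreeGroup (Fin r) → Equiv.Perm (K n)) (A : Type)
        (X : Set (FreeGroup (Fin r) → A)), IsSoficApprox K π → Finite A → IsSFT X →
        soficEntropy K π X ∈ ({⊥} ∪ Set.Ico 0 ⊤ : Set EReal)) ∧
    (∀ h ∈ ({⊥} ∪ Set.Ico 0 ⊤ : Set EReal),
      ∃ (K : ℕ → Type) (π : ∀ n, FreeGroup (Fin r) → Equiv.Perm (K n)) (A : Type)
        (X : Set (FreeGroup (Fin r) → A)), IsSoficApprox K π ∧ Finite A ∧ IsSFT X ∧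
        X.Nonempty ∧ soficEntropy K π X = h) := by
  have hab : (⟨0, by omega⟩ : Fin r) ≠ ⟨1, by omega⟩ := by simp
  refine ⟨fun K π A X hK hA _ => ?_, ?_⟩
  · rcases soficEntropy_range K π X with h | h
    · exact Or.inl h
    · exact Or.inr ⟨h, soficEntropy_lt_top K hK.1 π X⟩
  · rintro h (rfl | ⟨h0, h1⟩)
    · obtain ⟨K, π, h1, h2⟩ := exists_entropy_bot _ _ hab
      exact ⟨K, π, Bool, _, h1, inferInstance, isSFT_Xrel _ _ _, Xrel_R2_nonempty _ _ hab, h2⟩
    · lift h to ℝ using ⟨h1.ne, (lt_of_lt_of_le EReal.bot_lt_zero h0).ne'⟩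
      obtain ⟨K, π, m, h2, h3⟩ := exists_entropy_real _ _ hab h (by exact_mod_cast h0)
      exact ⟨K, π, Option (Fin m), _, h2, inferInstance, isSFT_Xrel _ _ _,
        Xrel_Rm_nonempty m _ _, h3⟩

end Pool.Agent.Results.MP_6ea370_an.EntropyValues
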